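import Pool.Agent.Helper51.PP.GoalsA2

/-!
# Representations of an ideal as an ordered product of primes (A2_REP)
-/

namespace Pool.Agent.Helper81.PP

open NumberField IsDedekindDomain

/-- Two maps from a finite type with the same multiset of values differ by a permutation. -/
theorem exists_perm_of_map_eq {ι α : Type*} [Fintype ι] [DecidableEq ι] [DecidableEq α]
    (f g : ι → α)
    (h : Multiset.map f (Finset.univ : Finset ι).val = Multiset.map g (Finset.univ : Finset ι).val) :
    ∃ σ : Equiv.Perm ι, f = g ∘ σ := by
  have hc : ∀ c : α, Fintype.card {a // f a = c} = Fintype.card {b // g b = c} := by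
    intro c
    have h1 := congrArg (Multiset.count c) h
    rw [Multiset.count_map, Multiset.count_map] at h1
    rw [Fintype.card_subtype, Fintype.card_subtype]
    have e1 : ((Finset.univ : Finset ι).filter fun a => f a = c).card =
        Multiset.card ((Finset.univ : Finset ι).val.filter fun a => c = f a) := by
      rw [Finset.card_def, Finset.filter_val]
      congr 1
      apply Multiset.filter_congr
      intro x _
      exact eq_comm
    have e2 : ((Finset.univ : Finset ι).filter fun a => g a = c).card =
        Multiset.card ((Finset.univ : Finset ι).val.filter fun a => c = g a) := by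
      rw [Finset.card_def, Finset.filter_val]
      congr 1
      apply Multiset.filter_congr
      intro x _
      exact eq_comm
    rw [e1, e2]
    exact h1
  refine ⟨Equiv.ofFiberEquiv (f := f) (g := g) fun c => Fintype.equivOfCardEq (hc c), ?_⟩
  funext a
  exact (Equiv.ofFiberEquiv_map _ a).symm

/-- **A2_REP**. -/
theorem a2_rep : Pool.Agent.Helper51.PP.A2_REP := by
  classical
  intro F _ _ Q r n
  by_cases hne : ∃ v0 : Fin r → HeightOneSpectrum (𝓞 F),
      (∀ i, v0 i ∈ Q) ∧ ∏ i, (v0 i).asIdeal = n
  · obtain ⟨v0, -, h0⟩ := hne
    have hsub : {v : Fin r → HeightOneSpectrum (𝓞 F) |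
        (∀ i, v i ∈ Q) ∧ ∏ i, (v i).asIdeal = n} ⊆
        (((Finset.univ : Finset (Equiv.Perm (Fin r))).image fun σ : Equiv.Perm (Fin r) => v0 ∘ (σ : Fin r → Fin r)) :
          Set (Fin r → HeightOneSpectrum (𝓞 F))) := by
      rintro v ⟨-, hv⟩
      have key : ∀ u : Fin r → HeightOneSpectrum (𝓞 F),
          UniqueFactorizationMonoid.normalizedFactors (∏ i, (u i).asIdeal) =
            Multiset.map (fun i => (u i).asIdeal) (Finset.univ : Finset (Fin r)).val := by
        intro u
        apply UniqueFactorizationMonoid.normalizedFactors_prod_of_prime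
        intro p hp
        rw [Multiset.mem_map] at hp
        obtain ⟨i, -, rfl⟩ := hp
        exact (u i).prime
      have h1 : Multiset.map (fun i => (v i).asIdeal) (Finset.univ : Finset (Fin r)).val =
          Multiset.map (fun i => (v0 i).asIdeal) (Finset.univ : Finset (Fin r)).val := by
        rw [← key v, ← key v0, hv, h0]
      have h2 : Multiset.map v (Finset.univ : Finset (Fin r)).val =
          Multiset.map v0 (Finset.univ : Finset (Fin r)).val := by
        apply Multiset.map_injective (f := fun P : HeightOneSpectrum (𝓞 F) => P.asIdeal)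
          (fun P P' hP => HeightOneSpectrum.ext hP)
        rw [Multiset.map_map, Multiset.map_map]
        exact h1
      obtain ⟨σ, hσ⟩ := exists_perm_of_map_eq v v0 h2
      rw [Finset.coe_image, Finset.coe_univ, Set.image_univ, Set.mem_range]
      exact ⟨σ, hσ.symm⟩
    calc _ ≤ (((Finset.univ : Finset (Equiv.Perm (Fin r))).image fun σ : Equiv.Perm (Fin r) => v0 ∘ (σ : Fin r → Fin r)) :
          Set (Fin r → HeightOneSpectrum (𝓞 F))).ncard := Set.ncard_le_ncard hsub (Finset.finite_toSet _)
      _ = ((Finset.univ : Finset (Equiv.Perm (Fin r))).image fun σ : Equiv.Perm (Fin r) => v0 ∘ (σ : Fin r → Fin r)).card :=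
          Set.ncard_coe_finset _
      _ ≤ (Finset.univ : Finset (Equiv.Perm (Fin r))).card := Finset.card_image_le
      _ = r.factorial := by rw [Finset.card_univ, Fintype.card_perm, Fintype.card_fin]
  · have : {v : Fin r → HeightOneSpectrum (𝓞 F) |
        (∀ i, v i ∈ Q) ∧ ∏ i, (v i).asIdeal = n} = ∅ := by
      rw [Set.eq_empty_iff_forall_notMem]
      intro v hv
      exact hne ⟨v, hv⟩
    rw [this, Set.ncard_empty]
    exact Nat.zero_le _

end Pool.Agent.Helper81.PP
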